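import Pool.Agent.H92.RR.Targets
import Pool.Agent.H74.MT.GEN

/-!
# Board `rr_modules`, row `RODG`: rationally almost periodic functions are generic
-/

set_option autoImplicit false

open MeasureTheory ProbabilityTheory Filter Topology Finset
open Pool.Agent.H89.MT Pool.Agent.H92.RR Pool.Agent.H74.MT
open scoped CompactlySupported

namespace Pool.Agent.H41.RR

/-! ### Logarithmic averages -/

theorem lavg_add (N : ℕ) (f g : ℕ → ℝ) : lavg N (fun n => f n + g n) = lavg N f + lavg N g := by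
  unfold lavg
  rw [← add_div, ← Finset.sum_add_distrib]
  congr 1
  exact Finset.sum_congr rfl fun n _ => add_div _ _ _

theorem lavg_sub (N : ℕ) (f g : ℕ → ℝ) : lavg N (fun n => f n - g n) = lavg N f - lavg N g := by
  unfold lavg
  rw [← sub_div, ← Finset.sum_sub_distrib]
  congr 1
  exact Finset.sum_congr rfl fun n _ => sub_div _ _ _

theorem lavg_mul (N : ℕ) (c : ℝ) (f : ℕ → ℝ) : lavg N (fun n => c * f n) = c * lavg N f := by
  unfold lavg
  rw [← mul_div_assoc, Finset.mul_sum]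
  congr 1
  exact Finset.sum_congr rfl fun n _ => mul_div_assoc _ _ _

theorem lavg_const (N : ℕ) (c : ℝ) : lavg N (fun _ => c) = c * lavg N (fun _ => (1 : ℝ)) := by
  rw [← lavg_mul]
  simp

theorem lavg_sum {ι : Type} (N : ℕ) (s : Finset ι) (f : ι → ℕ → ℝ) :
    lavg N (fun n => ∑ i ∈ s, f i n) = ∑ i ∈ s, lavg N (f i) := by
  classical
  induction s using Finset.induction_on with
  | empty => simp [lavg]
  | insert a s ha ih =>
    simp only [Finset.sum_insert ha]
    rw [lavg_add, ih]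

theorem lavg_mono (N : ℕ) {f g : ℕ → ℝ} (h : ∀ n, 0 < n → f n ≤ g n) : lavg N f ≤ lavg N g := by
  unfold lavg
  refine div_le_div_of_nonneg_right ?_ (Real.log_natCast_nonneg N)
  refine Finset.sum_le_sum fun n hn => ?_
  have := (Finset.mem_Icc.1 hn).1
  exact div_le_div_of_nonneg_right (h n this) (by positivity)

theorem abs_lavg_sub_le (N : ℕ) (f g : ℕ → ℝ) :
    |lavg N f - lavg N g| ≤ lavg N (fun n => |f n - g n|) := by
  rw [← lavg_sub]
  unfold lavg
  rw [abs_div, abs_of_nonneg (Real.log_natCast_nonneg N)]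
  refine div_le_div_of_nonneg_right ?_ (Real.log_natCast_nonneg N)
  refine (Finset.abs_sum_le_sum_abs _ _).trans (le_of_eq ?_)
  refine Finset.sum_congr rfl fun n _ => ?_
  rw [abs_div, Nat.abs_cast]

/-- Shift by one: bounded differences of the weighted sums. -/
theorem shift_bound (h : ℤ → ℝ) (B : ℝ) (hB : ∀ m, |h m| ≤ B) (N : ℕ) :
    |∑ n ∈ Icc 1 (N + 1), (h (n + 1) - h n) / (n : ℝ) - h ((N + 1 : ℕ) + 1) / ((N + 1 : ℕ) : ℝ)| ≤
      B * (2 - 1 / ((N + 1 : ℕ) : ℝ)) := by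
  induction N with
  | zero =>
    simp only [zero_add, Finset.Icc_self, Finset.sum_singleton, Nat.cast_one, div_one]
    have := hB 1
    rw [show h (1 + 1) - h 1 - h (1 + 1) = -h 1 by ring, abs_neg]
    linarith
  | succ N ih =>
    rw [Finset.sum_Icc_succ_top (by omega)]
    have hN1 : (0 : ℝ) < ((N + 1 : ℕ) : ℝ) := by positivity
    have hN2 : (0 : ℝ) < ((N + 1 + 1 : ℕ) : ℝ) := by positivity
    have hinv : 1 / ((N + 1 + 1 : ℕ) : ℝ) ≤ 1 / ((N + 1 : ℕ) : ℝ) := by
      apply one_div_le_one_div_of_le hN1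
      push_cast
      linarith
    have hc : (((N + 1 + 1 : ℕ) : ℤ)) = ((N + 1 : ℕ) : ℤ) + 1 := by push_cast; ring
    have hid : ∑ n ∈ Icc 1 (N + 1), (h (n + 1) - h n) / (n : ℝ) +
        (h (((N + 1 + 1 : ℕ) : ℤ) + 1) - h ((N + 1 + 1 : ℕ) : ℤ)) / ((N + 1 + 1 : ℕ) : ℝ) -
          h (((N + 1 + 1 : ℕ) : ℤ) + 1) / ((N + 1 + 1 : ℕ) : ℝ) =
        (∑ n ∈ Icc 1 (N + 1), (h (n + 1) - h n) / (n : ℝ) -
          h ((N + 1 : ℕ) + 1) / ((N + 1 : ℕ) : ℝ)) +
        h (((N + 1 : ℕ) : ℤ) + 1) * (1 / ((N + 1 : ℕ) : ℝ) - 1 / ((N + 1 + 1 : ℕ) : ℝ)) := by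
      rw [hc]
      ring
    rw [hid]
    refine (abs_add_le _ _).trans ?_
    have h3 : |h (((N + 1 : ℕ) : ℤ) + 1) *
        (1 / ((N + 1 : ℕ) : ℝ) - 1 / ((N + 1 + 1 : ℕ) : ℝ))| ≤
        B * (1 / ((N + 1 : ℕ) : ℝ) - 1 / ((N + 1 + 1 : ℕ) : ℝ)) := by
      rw [abs_mul, abs_of_nonneg (sub_nonneg.2 hinv)]
      exact mul_le_mul_of_nonneg_right (hB _) (sub_nonneg.2 hinv)
    linarith

theorem tendsto_inv_log (C : ℝ) : Tendsto (fun N : ℕ => C / Real.log N) atTop (𝓝 0) :=
  (tendsto_const_nhds (x := C)).div_atTop (Real.tendsto_log_atTop.comp tendsto_natCast_atTop_atTop)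

theorem shift_one (h : ℤ → ℝ) (B : ℝ) (hB : ∀ m, |h m| ≤ B) :
    Tendsto (fun N => lavg N (fun n => h (n + 1)) - lavg N (fun n => h n)) atTop (𝓝 0) := by
  have hB0 : 0 ≤ B := (abs_nonneg _).trans (hB 0)
  refine squeeze_zero_norm' ?_ (tendsto_inv_log (3 * B))
  filter_upwards [eventually_ge_atTop 1] with N hN
  obtain ⟨M, rfl⟩ : ∃ M, N = M + 1 := ⟨N - 1, by omega⟩
  rw [Real.norm_eq_abs, ← lavg_sub]
  unfold lavg
  rw [abs_div, abs_of_nonneg (Real.log_natCast_nonneg (M + 1))]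
  refine div_le_div_of_nonneg_right ?_ (Real.log_natCast_nonneg _)
  have h1 := shift_bound h B hB M
  have hM : (1 : ℝ) ≤ ((M + 1 : ℕ) : ℝ) := by
    exact_mod_cast Nat.succ_le_succ (Nat.zero_le M)
  have h2 : |h (((M + 1 : ℕ) : ℤ) + 1) / ((M + 1 : ℕ) : ℝ)| ≤ B := by
    rw [abs_div, Nat.abs_cast]
    exact (div_le_self (abs_nonneg _) hM).trans (hB _)
  have h3 : B * (2 - 1 / ((M + 1 : ℕ) : ℝ)) ≤ 2 * B := by
    have : (0 : ℝ) ≤ 1 / ((M + 1 : ℕ) : ℝ) := by positivity
    nlinarith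
  have h4 := abs_le.1 h1
  have h5 := abs_le.1 h2
  rw [abs_le]
  constructor <;> linarith

theorem shift_nat (h : ℤ → ℝ) (B : ℝ) (hB : ∀ m, |h m| ≤ B) (j : ℕ) :
    Tendsto (fun N => lavg N (fun n => h (n + j)) - lavg N (fun n => h n)) atTop (𝓝 0) := by
  induction j with
  | zero => simp
  | succ j ih =>
    have h1 := shift_one (fun m => h (m + j)) B (fun m => hB _)
    have h2 := h1.add ih
    rw [add_zero] at h2
    refine h2.congr fun N => ?_
    have : (fun n : ℕ => h ((n : ℤ) + ((j + 1 : ℕ) : ℤ))) =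
        fun n : ℕ => h ((n : ℤ) + 1 + (j : ℤ)) := by
      funext n
      congr 1
      push_cast
      ring
    rw [this]
    ring

theorem shift_int (h : ℤ → ℝ) (B : ℝ) (hB : ∀ m, |h m| ≤ B) (j : ℤ) :
    Tendsto (fun N => lavg N (fun n => h (n + j)) - lavg N (fun n => h n)) atTop (𝓝 0) := by
  rcases Int.eq_nat_or_neg j with ⟨k, rfl | rfl⟩
  · exact shift_nat h B hB k
  · have h1 := (shift_nat (fun m => h (m + -(k : ℤ))) B (fun m => hB _) k).neg
    rw [neg_zero] at h1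
    refine h1.congr fun N => ?_
    have : (fun n : ℕ => h ((n : ℤ) + (k : ℤ) + -(k : ℤ))) = fun n : ℕ => h (n : ℤ) := by
      funext n
      congr 1
      ring
    rw [this]
    ring

/-- Periodic functions have logarithmic averages. -/
theorem periodic_conv (G : ℤ → ℝ) (B : ℝ) (hB : ∀ m, |G m| ≤ B) (q : ℕ) (hq : 0 < q)
    (hG : ∀ m, G (m + q) = G m) : ∃ l, Tendsto (fun N => lavg N (fun n => G n)) atTop (𝓝 l) := by
  set S : ℝ := ∑ i ∈ range q, G (i : ℤ) with hS
  have hSn : ∀ n : ℕ, ∑ i ∈ range q, G ((n : ℤ) + (i : ℤ)) = S := by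
    intro n
    induction n with
    | zero => simp [hS]
    | succ n ih =>
      have h1 := Finset.sum_range_succ (fun i : ℕ => G ((n : ℤ) + (i : ℤ))) q
      have h2 := Finset.sum_range_succ' (fun i : ℕ => G ((n : ℤ) + (i : ℤ))) q
      rw [h1, ih, hG] at h2
      have h3 : ∑ i ∈ range q, G (((n + 1 : ℕ) : ℤ) + (i : ℤ)) =
          ∑ i ∈ range q, G ((n : ℤ) + ((i + 1 : ℕ) : ℤ)) := by
        refine Finset.sum_congr rfl fun i _ => ?_
        congr 1
        push_cast
        ring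
      rw [h3]
      have h4 : G ((n : ℤ) + ((0 : ℕ) : ℤ)) = G n := by simp
      rw [h4] at h2
      linarith
  have h1 : Tendsto (fun N => ∑ i ∈ range q, (lavg N (fun n => G ((n : ℤ) + (i : ℤ))) -
      lavg N (fun n => G n))) atTop (𝓝 (∑ i ∈ range q, (0 : ℝ))) :=
    tendsto_finset_sum _ fun i _ => shift_nat G B hB i
  rw [Finset.sum_const_zero] at h1
  have h2 : ∀ N, ∑ i ∈ range q, (lavg N (fun n => G ((n : ℤ) + (i : ℤ))) -
      lavg N (fun n => G n)) = S * lavg N (fun _ => (1 : ℝ)) - q * lavg N (fun n => G n) := by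
    intro N
    rw [Finset.sum_sub_distrib, ← lavg_sum, Finset.sum_const, Finset.card_range, nsmul_eq_mul,
      ← lavg_const]
    congr 2
    funext n
    exact hSn n
  have h3 : Tendsto (fun N => (S * lavg N (fun _ => (1 : ℝ)) -
      (S * lavg N (fun _ => (1 : ℝ)) - q * lavg N (fun n => G n))) / q) atTop
      (𝓝 ((S * 1 - 0) / q)) := by
    refine ((tendsto_lavg_one.const_mul S).sub ?_).div_const _
    exact h1.congr h2
  refine ⟨_, h3.congr fun N => ?_⟩
  have : (q : ℝ) ≠ 0 := by positivity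
  field_simp
  ring

/-! ### Uniform continuity -/

theorem unif (F : C(X, ℝ)) (ε : ℝ) (hε : 0 < ε) : ∃ (t : Finset (ℤ × ℕ)) (w : ℤ × ℕ → ℝ),
    (∀ p, 0 ≤ w p) ∧ ∀ x y : X, |F x - F y| ≤ ε + ∑ p ∈ t, w p * |(x p.1 : ℝ) - y p.1| := by
  classical
  obtain ⟨B, hB⟩ : ∃ B : ℝ, ∀ x, |F x| ≤ B := by
    obtain ⟨K, hK⟩ := isCompact_univ.exists_bound_of_continuousOn
      (f := fun x : X => F x) F.continuous.continuousOn
    exact ⟨K, fun x => by
      have := hK x (Set.mem_univ _)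
      rwa [Real.norm_eq_abs] at this⟩
  have hB0 : 0 ≤ B := (abs_nonneg _).trans (hB (fun _ => z1))
  have hD : Continuous fun z : X × X => |F z.1 - F z.2| :=
    ((F.continuous.comp continuous_fst).sub (F.continuous.comp continuous_snd)).abs
  have hK : IsCompact {z : X × X | ε ≤ |F z.1 - F z.2|} :=
    (isClosed_le continuous_const hD).isCompact
  have hc : ∀ j : ℤ, Continuous fun z : X × X => |(z.1 j : ℝ) - z.2 j| := by
    intro j
    have h1 : Continuous fun z : X × X => (z.1 j : ℝ) :=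
      continuous_subtype_val.comp ((continuous_apply j).comp continuous_fst)
    have h2 : Continuous fun z : X × X => (z.2 j : ℝ) :=
      continuous_subtype_val.comp ((continuous_apply j).comp continuous_snd)
    exact (h1.sub h2).abs
  obtain ⟨t, ht⟩ := hK.elim_finite_subcover
    (fun p : ℤ × ℕ => {z : X × X | 1 / ((p.2 : ℝ) + 1) < |(z.1 p.1 : ℝ) - z.2 p.1|})
    (fun p => isOpen_lt continuous_const (hc p.1)) (by
      intro z hz
      have hne : z.1 ≠ z.2 := by
        intro h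
        have h1 : ε ≤ |F z.1 - F z.2| := hz
        rw [h, sub_self, abs_zero] at h1
        linarith
      obtain ⟨j, hj⟩ := Function.ne_iff.1 hne
      have hpos : 0 < |(z.1 j : ℝ) - z.2 j| := by
        rw [abs_pos, sub_ne_zero]
        exact fun h => hj (Subtype.ext h)
      obtain ⟨k, hk⟩ := exists_nat_one_div_lt hpos
      exact Set.mem_iUnion.2 ⟨(j, k), hk⟩)
  refine ⟨t, fun p => 2 * B * ((p.2 : ℝ) + 1), fun p => by positivity, fun x y => ?_⟩
  have hnn : ∀ p ∈ t, 0 ≤ 2 * B * ((p.2 : ℝ) + 1) * |(x p.1 : ℝ) - y p.1| := by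
    intro p _
    positivity
  by_cases hxy : ε ≤ |F x - F y|
  · have hmem := ht (a := (x, y)) hxy
    obtain ⟨p, hp⟩ := Set.mem_iUnion.1 hmem
    obtain ⟨hpt, hp2⟩ := Set.mem_iUnion.1 hp
    have hp3 : 1 / ((p.2 : ℝ) + 1) < |(x p.1 : ℝ) - y p.1| := hp2
    have h1 : 1 < ((p.2 : ℝ) + 1) * |(x p.1 : ℝ) - y p.1| := by
      rwa [div_lt_iff₀ (by positivity), mul_comm] at hp3
    have h2 : |F x - F y| ≤ 2 * B := by
      have h3 := abs_le.1 (hB x)
      have h4 := abs_le.1 (hB y)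
      rw [abs_le]
      constructor <;> linarith
    have h5 : 2 * B * ((p.2 : ℝ) + 1) * |(x p.1 : ℝ) - y p.1| ≤
        ∑ p ∈ t, 2 * B * ((p.2 : ℝ) + 1) * |(x p.1 : ℝ) - y p.1| :=
      Finset.single_le_sum (f := fun p : ℤ × ℕ => 2 * B * ((p.2 : ℝ) + 1) *
        |(x p.1 : ℝ) - y p.1|) hnn hpt
    have h6 : 2 * B ≤ 2 * B * ((p.2 : ℝ) + 1) * |(x p.1 : ℝ) - y p.1| := by
      rw [mul_assoc]
      nlinarith
    linarith
  · have := Finset.sum_nonneg hnn
    linarith [not_le.1 hxy]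

/-! ### The limits -/

theorem conv_of_approx (a : ℕ → ℝ) (h : ∀ ε : ℝ, 0 < ε → ∃ b : ℕ → ℝ,
    (∃ l, Tendsto b atTop (𝓝 l)) ∧ ∀ᶠ N in atTop, |a N - b N| ≤ ε) :
    ∃ l, Tendsto a atTop (𝓝 l) := by
  apply cauchySeq_tendsto_of_complete
  rw [Metric.cauchySeq_iff']
  intro ε hε
  obtain ⟨b, ⟨l, hl⟩, hb⟩ := h (ε / 5) (by positivity)
  rw [Metric.tendsto_atTop] at hl
  obtain ⟨N₁, h₁⟩ := hl (ε / 5) (by positivity)
  obtain ⟨N₂, h₂⟩ := eventually_atTop.1 hb
  refine ⟨max N₁ N₂, fun n hn => ?_⟩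
  have h3 := h₁ n ((le_max_left _ _).trans hn)
  have h4 := h₁ (max N₁ N₂) (le_max_left _ _)
  have h5 := h₂ n ((le_max_right _ _).trans hn)
  have h6 := h₂ (max N₁ N₂) (le_max_right _ _)
  rw [Real.dist_eq] at h3 h4 ⊢
  rw [abs_lt] at h3 h4 ⊢
  rw [abs_le] at h5 h6
  constructor <;> linarith

theorem lavg_conv (u : ℕ → I1) (hu : RAP u) (F : C(X, ℝ)) :
    ∃ l, Tendsto (fun N => lavg N fun n => F (pt u n)) atTop (𝓝 l) := by
  apply conv_of_approx
  intro ε hε
  obtain ⟨t, w, hw, hF⟩ := unif F (ε / 4) (by positivity)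
  set W : ℝ := ∑ p ∈ t, w p with hW
  have hW0 : 0 ≤ W := Finset.sum_nonneg fun p _ => hw p
  obtain ⟨q, Q, hq, hQ, hN⟩ := hu (ε / (4 * (W + 1))) (by positivity)
  -- the periodic function
  set G : ℤ → ℝ := fun n => F (fun m => Q (n + m)) with hG
  obtain ⟨B, hB⟩ : ∃ B : ℝ, ∀ x, |F x| ≤ B := by
    obtain ⟨K, hK⟩ := isCompact_univ.exists_bound_of_continuousOn
      (f := fun x : X => F x) F.continuous.continuousOn
    exact ⟨K, fun x => by
      have := hK x (Set.mem_univ _)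
      rwa [Real.norm_eq_abs] at this⟩
  refine ⟨fun N => lavg N (fun n => G n), periodic_conv G B (fun m => hB _) q hq ?_, ?_⟩
  · intro m
    simp only [hG]
    congr 1
    funext k
    rw [show m + (q : ℤ) + k = m + k + q by ring, hQ]
  -- the differences
  set g : ℤ → ℝ := fun m => |((if 0 < m then u m.toNat else z1 : I1) : ℝ) - Q m| with hg
  have hgB : ∀ m, |g m| ≤ 2 := by
    intro m
    simp only [hg]
    rw [abs_abs]
    have h1 := abs_le.1 (abs_I1 (if 0 < m then u m.toNat else z1 : I1))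
    have h2 := abs_le.1 (abs_I1 (Q m))
    rw [abs_le]
    constructor <;> linarith
  have hone : ∀ᶠ N : ℕ in atTop, lavg N (fun _ => (1 : ℝ)) ≤ 2 :=
    (tendsto_lavg_one.eventually (ge_mem_nhds (by norm_num : (1 : ℝ) < 2)))
  have hsh : ∀ᶠ N : ℕ in atTop, ∀ p ∈ t, lavg N (fun n => g ((n : ℤ) + p.1)) ≤
      lavg N (fun n => g n) + ε / (4 * (W + 1)) := by
    rw [Filter.eventually_all_finset]
    intro p _
    have h1 := (shift_int g 2 hgB p.1).eventually (ge_mem_nhds
      (show (0 : ℝ) < ε / (4 * (W + 1)) by positivity))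
    filter_upwards [h1] with N hN
    linarith
  filter_upwards [hone, hsh, hN] with N h1 h2 h3
  have hgn : lavg N (fun n => g n) = lavg N (fun n => |(u n : ℝ) - Q n|) := by
    unfold lavg
    congr 1
    refine Finset.sum_congr rfl fun n hn => ?_
    have hn1 := (Finset.mem_Icc.1 hn).1
    simp only [hg]
    rw [if_pos (by exact_mod_cast hn1), Int.toNat_natCast]
  have h4 : ∀ p ∈ t, lavg N (fun n => g ((n : ℤ) + p.1)) ≤ 2 * (ε / (4 * (W + 1))) := by
    intro p hp
    have := h2 p hp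
    rw [hgn] at this
    linarith
  calc |lavg N (fun n => F (pt u n)) - lavg N (fun n => G n)|
      ≤ lavg N (fun n => |F (pt u n) - G n|) := abs_lavg_sub_le _ _ _
    _ ≤ lavg N (fun n => ε / 4 + ∑ p ∈ t, w p * g ((n : ℤ) + p.1)) := by
        refine lavg_mono N fun n _ => ?_
        exact hF (pt u n) (fun m => Q ((n : ℤ) + m))
    _ = ε / 4 * lavg N (fun _ => (1 : ℝ)) +
        ∑ p ∈ t, w p * lavg N (fun n => g ((n : ℤ) + p.1)) := by
        rw [lavg_add, lavg_const, lavg_sum]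
        congr 1
        exact Finset.sum_congr rfl fun p _ => lavg_mul _ _ _
    _ ≤ ε / 4 * 2 + ∑ p ∈ t, w p * (2 * (ε / (4 * (W + 1)))) := by
        refine add_le_add (mul_le_mul_of_nonneg_left h1 (by positivity)) ?_
        exact Finset.sum_le_sum fun p hp => mul_le_mul_of_nonneg_left (h4 p hp) (hw p)
    _ = ε / 2 + W / (W + 1) * (ε / 2) := by
        rw [← Finset.sum_mul, ← hW]
        field_simp
        ring
    _ ≤ ε := by
        have : W / (W + 1) ≤ 1 := by
          rw [div_le_one (by positivity)]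
          linarith
        nlinarith

/-- Rationally almost periodic functions are generic. -/
theorem pf_ODG : T_ODG := by
  intro u hu
  choose Λ hΛ using fun F : C(X, ℝ) => lavg_conv u hu F
  let Λ' : C_c(X, ℝ) →ₚ[ℝ] ℝ :=
    { toFun := fun g => Λ g.toContinuousMap
      map_add' := fun g g' => by
        refine tendsto_nhds_unique (hΛ _) (((hΛ g.toContinuousMap).add
          (hΛ g'.toContinuousMap)).congr fun N => ?_)
        rw [← lavg_add]
        rfl
      map_smul' := fun c g => by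
        refine tendsto_nhds_unique (hΛ _) (((hΛ g.toContinuousMap).const_mul c).congr fun N => ?_)
        rw [← lavg_mul]
        rfl
      monotone' := fun g g' hgg => by
        refine le_of_tendsto_of_tendsto' (hΛ _) (hΛ _) fun N => ?_
        exact lavg_mono N fun n _ => hgg _ }
  have hint : ∀ F : C(X, ℝ), ∫ x, F x ∂(RealRMK.rieszMeasure Λ') = Λ F := by
    intro F
    let g : C_c(X, ℝ) := { toFun := F, hasCompactSupport' := HasCompactSupport.of_compactSpace _ }
    exact RealRMK.integral_rieszMeasure Λ' g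
  refine ⟨RealRMK.rieszMeasure Λ', ⟨?_⟩, fun F => ?_⟩
  · have h1 := hint (ContinuousMap.const X 1)
    have h2 : Λ (ContinuousMap.const X 1) = 1 :=
      tendsto_nhds_unique (hΛ _) tendsto_lavg_one
    rw [h2] at h1
    simp only [ContinuousMap.const_apply, integral_const, smul_eq_mul, mul_one] at h1
    rw [Measure.real, ENNReal.toReal_eq_one_iff] at h1
    exact h1
  · rw [hint]
    exact hΛ F

end Pool.Agent.H41.RR
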