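import Pool.Agent.H92.RR.Targets

/-!
# Board `rr_modules`, row `RSTM`: the moments of `star α`
-/

set_option autoImplicit false

open MeasureTheory ProbabilityTheory Filter Topology Finset
open Pool.Agent.H89.MT Pool.Agent.H92.RR

namespace Pool.Agent.H41.RR

theorem measurable_star_map : Measurable fun (z : X × X) (j : ℤ) => mu (z.1 j) (z.2 j) := by
  refine measurable_pi_lambda _ fun j => ?_
  refine Measurable.subtype_mk ?_
  have h1 : Measurable fun z : X × X => ((z.1 j : I1) : ℝ) :=
    measurable_subtype_coe.comp ((measurable_pi_apply j).comp measurable_fst)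
  have h2 : Measurable fun z : X × X => ((z.2 j : I1) : ℝ) :=
    measurable_subtype_coe.comp ((measurable_pi_apply j).comp measurable_snd)
  exact h1.mul h2

instance : IsProbabilityMeasure bern := by
  unfold bern
  infer_instance

theorem measurable_mon (J : Finset ℤ) (a : ℤ → ℕ) :
    Measurable fun x : X => ∏ j ∈ J, (x j : ℝ) ^ a j := by
  refine Finset.measurable_prod _ fun j _ => ?_
  exact (measurable_subtype_coe.comp (measurable_pi_apply j)).pow_const _

/-- the moments of the fair signs -/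
theorem bern_mom (hB : T_BER) (J : Finset ℤ) (a : ℤ → ℕ) :
    ((∃ j ∈ J, Odd (a j)) → ∫ x, ∏ j ∈ J, (x j : ℝ) ^ a j ∂bern = 0) ∧
    ((∀ j ∈ J, Even (a j)) → ∫ x, ∏ j ∈ J, (x j : ℝ) ^ a j ∂bern = 1) := by
  classical
  obtain ⟨h1, h2⟩ := hB
  have hae : (fun x : X => ∏ j ∈ J, (x j : ℝ) ^ a j) =ᵐ[bern]
      fun x : X => ∏ j ∈ J.filter (fun j => Odd (a j)), (x j : ℝ) := by
    filter_upwards [h1] with x hx
    rw [Finset.prod_filter]
    refine Finset.prod_congr rfl fun j _ => ?_
    have hsq : (x j : ℝ) ^ 2 = 1 := by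
      rw [← sq_abs, hx j, one_pow]
    by_cases ho : Odd (a j)
    · rw [if_pos ho]
      obtain ⟨k, hk⟩ := ho
      rw [hk, pow_succ, pow_mul, hsq, one_pow, one_mul]
    · rw [if_neg ho]
      obtain ⟨k, hk⟩ := Nat.not_odd_iff_even.1 ho
      rw [hk, ← two_mul, pow_mul, hsq, one_pow]
  constructor
  · rintro ⟨j, hj, ho⟩
    rw [integral_congr_ae hae]
    exact h2 _ ⟨j, Finset.mem_filter.2 ⟨hj, ho⟩⟩
  · intro he
    rw [integral_congr_ae hae]
    have : J.filter (fun j => Odd (a j)) = ∅ := by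
      rw [Finset.filter_eq_empty_iff]
      intro j hj
      rw [Nat.not_odd_iff_even]
      exact he j hj
    rw [this]
    simp

/-- The moments of `star α`. -/
theorem pf_STM (hB : T_BER) : T_STM := by
  intro α hα
  have hprob : IsProbabilityMeasure (Pool.Agent.H92.RR.star α) := by
    unfold Pool.Agent.H92.RR.star
    exact Measure.isProbabilityMeasure_map measurable_star_map.aemeasurable
  refine ⟨hprob, fun J a => ?_⟩
  have key : ∫ x, ∏ j ∈ J, (x j : ℝ) ^ a j ∂(Pool.Agent.H92.RR.star α) =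
      (∫ x, ∏ j ∈ J, (x j : ℝ) ^ a j ∂α) * ∫ x, ∏ j ∈ J, (x j : ℝ) ^ a j ∂bern := by
    unfold Pool.Agent.H92.RR.star
    rw [integral_map measurable_star_map.aemeasurable (measurable_mon J a).aestronglyMeasurable,
      ← integral_prod_mul]
    refine integral_congr_ae (Filter.Eventually.of_forall fun z => ?_)
    change ∏ j ∈ J, ((z.1 j : ℝ) * (z.2 j : ℝ)) ^ a j =
      (∏ j ∈ J, (z.1 j : ℝ) ^ a j) * ∏ j ∈ J, (z.2 j : ℝ) ^ a j
    rw [← Finset.prod_mul_distrib]
    exact Finset.prod_congr rfl fun j _ => mul_pow _ _ _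
  constructor
  · intro ho
    rw [key, (bern_mom hB J a).1 ho, mul_zero]
  · intro he
    rw [key, (bern_mom hB J a).2 he, mul_one]

end Pool.Agent.H41.RR
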